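import Pool.Agent.TH82.BS.Main

/-!
# Bounded subsets reducing a nonabelian simple quotient

Let `G ≤ Sym(Ω)` with `Ω` finite and let `φ : G → T` be an epimorphism onto a nonabelian simple
group such that `T` is not a section of `Out S` for any nonabelian simple section `S` of `ker φ`.
Then some `Δ ⊆ Ω` with `|Δ| ≤ 3` has `φ(G_Δ) < T`.

The hypothesis on `ker φ` holds vacuously if `ker φ` is solvable, and it holds whenever every
nonabelian simple section of `ker φ` satisfies the conclusion of Schreier's conjecture.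
-/

namespace Pool.Agent.Results.MP_870b40_al.BoundedSubset

open scoped Pointwise

universe u

/-- `T` is a homomorphic image of a subgroup of `Out S = Aut S / Inn S`: there are a subgroup `A`
of `Aut S` and an epimorphism `ψ : A → T` killing every inner automorphism contained in `A`. -/
def IsSectionOfOut (T S : Type u) [Group T] [Group S] : Prop :=
  ∃ (A : Subgroup (MulAut S)) (ψ : A →* T), Function.Surjective ψ ∧
    ∀ a : A, (a : MulAut S) ∈ (MulAut.conj : S →* MulAut S).range → ψ a = 1

/-- `S` is a section of the subgroup `K` of `G`: a homomorphic image of a subgroup of `K`. -/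
def IsSectionOf (S : Type u) [Group S] {G : Type u} [Group G] (K : Subgroup G) : Prop :=
  ∃ (A : Subgroup G) (π : A →* S), A ≤ K ∧ Function.Surjective π

theorem result (Ω : Type u) [Finite Ω] (G : Subgroup (Equiv.Perm Ω))
    (T : Type u) [Group T] [IsSimpleGroup T] (hT : ∃ a b : T, a * b ≠ b * a)
    (φ : G →* T) (hφ : Function.Surjective φ)
    (hS : ∀ (S : Type u) [Group S] [IsSimpleGroup S], (∃ a b : S, a * b ≠ b * a) →
      IsSectionOf S φ.ker → ¬ IsSectionOfOut T S) :
    ∃ Δ : Finset Ω, Δ.card ≤ 3 ∧
      Subgroup.map φ (MulAction.stabilizer G (Δ : Set Ω)) < ⊤ := by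
  classical
  have hT' : ¬ ∀ a b : T, a * b = b * a := by
    obtain ⟨a, b, hab⟩ := hT
    exact fun h => hab (h a b)
  have hO : Pool.Agent.TH82.BS.OutFree φ := by
    intro S _ _ hSn A hA π hπ B ψ hψ hsurj
    refine hS S ?_ ⟨A, π, hA, hπ⟩ ⟨B, ψ, hsurj, hψ⟩
    by_contra hcon
    push Not at hcon
    exact hSn hcon
  obtain ⟨Δ, h3, hf, hΔ⟩ := Pool.Agent.TH82.BS.perm_theorem hT' φ hφ hO Ω (by
    intro x hx
    have : x = 1 := by
      apply Subtype.ext
      ext ω
      exact hx ω
    rw [this, map_one])
  refine ⟨hf.toFinset, ?_, ?_⟩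
  · rw [← Set.ncard_eq_toFinset_card Δ hf]
    exact h3
  · rw [Set.Finite.coe_toFinset]
    exact lt_top_iff_ne_top.mpr hΔ

end Pool.Agent.Results.MP_870b40_al.BoundedSubset
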